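import Pool.Agent.W295.PR.Stm

/-!
Project PR (helper295), subtask PR-UNIP.
-/

set_option autoImplicit false

namespace Pool.Agent.W766.PR.Unip

open Pool.Agent.W295.PR

/-- the filtration `GF i = C` for `i ≤ m` and trivial afterwards -/
def TF (C : Type) [CommGroup C] (m i : ℕ) : Subgroup C := if i ≤ m then ⊤ else ⊥

theorem filt (C : Type) [CommGroup C] (m : ℕ) : Filt (TF C m) := by
  constructor
  · intro i
    unfold TF
    split_ifs with h1 h2 h3
    · exact le_rfl
    · omega
    · exact bot_le
    · exact le_rfl
  · intro i j x _ y _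
    have : x * y * x⁻¹ * y⁻¹ = 1 := by
      rw [mul_comm x y, mul_assoc y x, mul_inv_cancel, mul_one, mul_inv_cancel]
    rw [this]
    exact one_mem _

theorem one_poly {R : Type} [AddCommGroup R] {G : Type} [Group G] (RF : ℕ → AddSubgroup R)
    (GF : ℕ → Subgroup G) (n : ℕ) : ∀ l, IsPoly RF GF n l (fun _ => (1 : G)) := by
  induction n with
  | zero => intro l x; exact one_mem _
  | succ n ih =>
    intro l
    refine ⟨ih l, fun j _ h _ => ?_⟩
    have : dd h (fun _ : R => (1 : G)) = fun _ => 1 := by
      funext x
      simp [dd]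
    rw [this]
    exact ih _

theorem pdeg_poly (D m : ℕ) (C : Type) [CommGroup C] (n : ℕ) : ∀ (e l : ℕ) (f : RR D → C),
    PDeg e f → l + e * D ≤ m → IsPoly (RFw D) (TF C m) n l f := by
  induction n with
  | zero =>
    intro e l f _ hl x
    have : TF C m l = ⊤ := if_pos (by omega)
    rw [this]
    exact Subgroup.mem_top _
  | succ n ih =>
    intro e l f hf hl
    refine ⟨ih e l f hf hl, fun j hj h hh => ?_⟩
    by_cases hjD : D < j
    · have h0 : h = 0 := by
        funext i
        exact hh i (by omega)
      have : dd h f = fun _ => 1 := by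
        funext x
        simp [dd, h0]
      rw [this]
      exact one_poly _ _ _ _
    · cases e with
      | zero =>
        have : dd h f = fun _ => 1 := by
          funext x
          have hx : f (x + h) = f x := hf h x
          simp [dd, hx]
        rw [this]
        exact one_poly _ _ _ _
      | succ e =>
        refine ih e (l + j) (dd h f) (hf h) ?_
        have : (e + 1) * D = e * D + D := by ring
        omega

theorem main (h1 : S_RAISE) (_h2 : S_PG) (h3 : S_EV) (h4 : S_RFW) : S_UNIP := by
  intro D d
  refine ⟨d * D + 1, ?_⟩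
  intro C _ c hc
  have key : ∀ J n : ℕ, IsPoly (RFw D) (TF C (d * D)) n J
      ((fun f : RR D → C => fun q => f (tau D 1 q) * (f q)⁻¹)^[J] c) := by
    intro J
    induction J with
    | zero =>
      intro n
      rw [Function.iterate_zero, id]
      exact pdeg_poly D (d * D) C n d 0 c hc (by omega)
    | succ J ih =>
      intro n
      rw [Function.iterate_succ_apply']
      exact h1 (RR D) C (RFw D) (TF C (d * D)) (filt C (d * D)) (h4 D).1 (h4 D).2.2.1 (tau D 1)
        (fun x y => (h3 D 1 0 x y).2.2.2.2.1) (fun j hj h hh => (h4 D).2.2.2 1 j h hj hh) n J _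
        (ih (n + 1))
  have h5 := key (d * D + 1) 0
  funext q
  have h6 := h5 q
  have h7 : TF C (d * D) (d * D + 1) = ⊥ := if_neg (by omega)
  rw [h7, Subgroup.mem_bot] at h6
  rw [h6]
  rfl

end Pool.Agent.W766.PR.Unip
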